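import Pool.Agent.H505Z.NP.Defs

set_option autoImplicit false

namespace Pool.Agent.H485Z.NPB

open Pool.Agent.H505Z.NP

lemma exists_maxval {E ι : Type} [Field E] [Finite ι] (W : ValuationSubring E) (x : ι → E)
    (h : ∃ l, x l ≠ 0) : ∃ l, x l ≠ 0 ∧ ∀ l', x l' / x l ∈ W := by
  obtain ⟨l0, h0⟩ := h
  haveI : Nonempty ι := ⟨l0⟩
  obtain ⟨l, hl⟩ := Finite.exists_max (fun l => W.valuation (x l))
  have hne : x l ≠ 0 := by
    intro e
    have := hl l0
    simp only [e, map_zero, le_zero_iff, map_eq_zero] at this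
    exact h0 this
  refine ⟨l, hne, fun l' => ?_⟩
  rw [← W.valuation_le_one_iff, map_div₀]
  exact div_le_one_of_le₀ (hl l') zero_le

lemma aeval_mem {K E ι : Type} [Field K] [Field E] [Algebra K E] (W : ValuationSubring E)
    (hK : ∀ c : K, algebraMap K E c ∈ W) (r : ι → E) (hr : ∀ s, r s ∈ W) (P : MvPolynomial ι K) :
    MvPolynomial.aeval r P ∈ W := by
  induction P using MvPolynomial.induction_on with
  | C a => simpa using hK a
  | add p q hp hq => rw [map_add]; exact W.add_mem _ _ hp hq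
  | mul_X p s hp => rw [map_mul, MvPolynomial.aeval_X]; exact W.mul_mem _ _ hp (hr s)

lemma mul_mem_R {E : Type} [Field E] {W : ValuationSubring E} (R : Submodule W E) {x y : E}
    (hx : x ∈ W) (hy : y ∈ R) : x * y ∈ R := R.smul_mem ⟨x, hx⟩ hy

section
variable {K V ι : Type} [Field K] [CommRing V] [Algebra K V] (T : ι → V) (w : ι × ι → V)

/-- the graded pieces of the module generated by the forms `w` -/
noncomputable def NN : ℕ → Submodule K V
  | 0 => ⊥
  | 1 => ⊥
  | 2 => Submodule.span K (Set.range w)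
  | d + 3 => ⨆ i, (NN (d + 2)).map (LinearMap.mulLeft K (T i))

lemma NN_fg [Finite ι] : ∀ d, (NN (K := K) T w d).FG
  | 0 => Submodule.fg_bot
  | 1 => Submodule.fg_bot
  | 2 => Submodule.fg_span (Set.finite_range w)
  | d + 3 => by
    rw [NN]
    exact Submodule.fg_iSup _ (fun i => (NN_fg (d + 2)).map _)

lemma NN_mul : ∀ d i, ∀ v ∈ NN (K := K) T w d, T i * v ∈ NN (K := K) T w (d + 1)
  | 0, i, v, hv => by
    rw [NN, Submodule.mem_bot] at hv; simp [hv]
  | 1, i, v, hv => by
    rw [NN, Submodule.mem_bot] at hv; simp [hv]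
  | d + 2, i, v, hv => by
    rw [NN]
    exact Submodule.mem_iSup_of_mem i ⟨v, hv, rfl⟩

lemma NN_pow (i : ι) (k d : ℕ) {v : V} (hv : v ∈ NN (K := K) T w d) :
    T i ^ k * v ∈ NN (K := K) T w (d + k) := by
  induction k with
  | zero => simpa using hv
  | succ k ih => rw [pow_succ', mul_assoc, ← add_assoc]; exact NN_mul T w _ i _ ih

def InM (i : ι) (x : V) : Prop :=
  ∃ M, ∀ d, ∀ n ∈ NN (K := K) T w d, T i ^ M * x * n ∈ NN (K := K) T w (d + M)

def InN (i : ι) (x : V) : Prop := ∃ M, T i ^ M * x ∈ NN (K := K) T w M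

def In2 (i j : ι) (x : V) : Prop := ∃ M, (T i * T j) ^ M * x ∈ NN (K := K) T w (2 * M)

variable {T w}

lemma InM.add {i : ι} {x y : V} (hx : InM (K := K) T w i x) (hy : InM (K := K) T w i y) :
    InM (K := K) T w i (x + y) := by
  obtain ⟨a, ha⟩ := hx
  obtain ⟨b, hb⟩ := hy
  refine ⟨a + b, fun d n hn => ?_⟩
  have h1 := NN_pow T w i b _ (ha d n hn)
  have h2 := NN_pow T w i a _ (hb d n hn)
  rw [show d + b + a = d + a + b by ring] at h2
  have := Submodule.add_mem _ h1 h2
  rw [← add_assoc]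
  convert this using 1
  ring

lemma InM.mul {i : ι} {x y : V} (hx : InM (K := K) T w i x) (hy : InM (K := K) T w i y) :
    InM (K := K) T w i (x * y) := by
  obtain ⟨a, ha⟩ := hx
  obtain ⟨b, hb⟩ := hy
  refine ⟨a + b, fun d n hn => ?_⟩
  have := hb _ _ (ha d n hn)
  rw [← add_assoc]
  convert this using 1
  ring

lemma InN.add {i : ι} {x y : V} (hx : InN (K := K) T w i x) (hy : InN (K := K) T w i y) :
    InN (K := K) T w i (x + y) := by
  obtain ⟨a, ha⟩ := hx
  obtain ⟨b, hb⟩ := hy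
  refine ⟨a + b, ?_⟩
  have h1 := NN_pow T w i b _ ha
  have h2 := NN_pow T w i a _ hb
  rw [add_comm b a] at h2
  have := Submodule.add_mem _ h1 h2
  convert this using 1
  ring

lemma InM.mulN {i : ι} {x y : V} (hx : InM (K := K) T w i x) (hy : InN (K := K) T w i y) :
    InN (K := K) T w i (x * y) := by
  obtain ⟨a, ha⟩ := hx
  obtain ⟨b, hb⟩ := hy
  refine ⟨b + a, ?_⟩
  have := ha _ _ hb
  convert this using 1
  ring

lemma InM.mul2 {i j : ι} {x y : V} (hx : InM (K := K) T w j x) (hy : InN (K := K) T w i y) :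
    In2 (K := K) T w i j (x * y) := by
  obtain ⟨a, ha⟩ := hx
  obtain ⟨b, hb⟩ := hy
  refine ⟨a + b, ?_⟩
  have := NN_pow T w j b _ (NN_pow T w i a _ (ha _ _ hb))
  rw [show b + a + a + b = 2 * (a + b) by ring] at this
  convert this using 1
  ring

lemma In2.add {i j : ι} {x y : V} (hx : In2 (K := K) T w i j x) (hy : In2 (K := K) T w i j y) :
    In2 (K := K) T w i j (x + y) := by
  obtain ⟨a, ha⟩ := hx
  obtain ⟨b, hb⟩ := hy
  refine ⟨a + b, ?_⟩
  have h1 := NN_pow T w j b _ (NN_pow T w i b _ ha)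
  have h2 := NN_pow T w j a _ (NN_pow T w i a _ hb)
  rw [show 2 * a + b + b = 2 * (a + b) by ring] at h1
  rw [show 2 * b + a + a = 2 * (a + b) by ring] at h2
  have := Submodule.add_mem _ h1 h2
  convert this using 1
  ring

lemma In2.sum {i j : ι} {κ : Type} (s : Finset κ) (f : κ → V)
    (h : ∀ k, In2 (K := K) T w i j (f k)) : In2 (K := K) T w i j (∑ k ∈ s, f k) :=
  Finset.sum_induction f _ (fun _ _ => In2.add) ⟨0, by simp⟩ (fun k _ => h k)

end

lemma alpha_diff {K E ι : Type} [Field K] [Field E] [Algebra K E] [Fintype ι]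
    (D : Derivation K E E) (ϑ lam mu : ι → E) (h1 : ∑ l, lam l * ϑ l = 1)
    (h2 : ∑ l, mu l * ϑ l = 1) :
    ∑ l, ∑ l', mu l' * ϑ l * D (lam l * ϑ l') = ∑ l, ϑ l * D (lam l) - ∑ l, ϑ l * D (mu l) := by
  have e := congrArg D h2
  rw [map_sum, D.map_one_eq_zero] at e
  simp only [Derivation.leibniz, smul_eq_mul, Finset.sum_add_distrib] at e
  have : ∑ l, ∑ l', mu l' * ϑ l * D (lam l * ϑ l') =
      (∑ l, lam l * ϑ l) * (∑ l', mu l' * D (ϑ l')) +
        (∑ l, ϑ l * D (lam l)) * (∑ l', mu l' * ϑ l') := by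
    rw [Finset.sum_mul_sum, Finset.sum_mul_sum, ← Finset.sum_add_distrib]
    refine Finset.sum_congr rfl fun l _ => ?_
    rw [← Finset.sum_add_distrib]
    refine Finset.sum_congr rfl fun l' _ => ?_
    simp only [Derivation.leibniz, smul_eq_mul]; ring
  rw [this, h1, h2]
  linear_combination e

lemma alpha_mem {K E ι : Type} [Field K] [Field E] [Algebra K E] [Fintype ι]
    (D : Derivation K E E) (W : ValuationSubring E) (ϑ lam : ι → E) (h1 : ∑ l, lam l * ϑ l = 1)
    (hW : ∀ l l', lam l * ϑ l' ∈ W) (l0 : ι) (h0 : ϑ l0 ≠ 0) (hr : ∀ l, ϑ l / ϑ l0 ∈ W) :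
    ∑ l, ϑ l * D (lam l) + D (ϑ l0) / ϑ l0 ∈ Submodule.span W (D '' (W : Set E)) := by
  have : ∑ l, ϑ l * D (lam l) + D (ϑ l0) / ϑ l0 = ∑ l, ϑ l / ϑ l0 * D (lam l * ϑ l0) := by
    rw [← one_mul (D (ϑ l0) / ϑ l0), ← h1, Finset.sum_mul, ← Finset.sum_add_distrib]
    refine Finset.sum_congr rfl fun l _ => ?_
    simp only [Derivation.leibniz, smul_eq_mul]
    field_simp
    ring
  rw [this]
  exact Submodule.sum_mem _ fun l _ =>
    mul_mem_R _ (hr l) (Submodule.subset_span ⟨_, hW l l0, rfl⟩)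

lemma D_div {K E : Type} [Field K] [Field E] [Algebra K E] (D : Derivation K E E) (x : E) {y : E}
    (hy : y ≠ 0) : D (x / y) = (y * D x - x * D y) / y ^ 2 := by
  have e : D x = D (x / y * y) := by rw [div_mul_cancel₀ _ hy]
  rw [Derivation.leibniz, smul_eq_mul, smul_eq_mul] at e
  rw [e]
  field_simp
  ring

theorem thm_B (h1 : S_curve) (h2 : S_serre) : S_B := by
  intro K _ _ ι _ F _ _ _ L τ ϑ e hτ hlam hL h0 ht
  classical
  have hD : ∀ j, ∃ D : Derivation K (F j) (F j), (∀ x ∈ L j, D x = 0) ∧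
      ∀ (β : F j) (a : K), a ≠ 0 →
      ¬ (∀ W : ValuationSubring (F j), (∀ c : K, algebraMap K (F j) c ∈ W) → ∀ l, ϑ j j l ≠ 0 →
        (∀ l', ϑ j j l' / ϑ j j l ∈ W) →
        β + algebraMap K (F j) a * (D (ϑ j j l) / ϑ j j l) ∈
          Submodule.span W (D '' (W : Set (F j)))) := fun j => by
    obtain ⟨l0, e0⟩ := h0 j
    obtain ⟨l1, e1⟩ := ht j
    exact h1 K (F j) (L j) ι (ϑ j j) l0 l1 e0 e1
  choose D hDL hDn using hD
  choose! lam hl1 hl2 using hlam
  let T : ι → ∀ j, F j := fun i j => τ j i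
  let w : ι × ι → ∀ j, F j := fun p j => τ j p.1 * D j (τ j p.2) - τ j p.2 * D j (τ j p.1)
  let ev : ι → MvPolynomial ι K → ∀ j, F j := fun i P j =>
    MvPolynomial.aeval (fun s => τ j s / τ j i) P
  let dv : ι → MvPolynomial ι K → ∀ j, F j := fun i P j => D j (ev i P j)
  have hr : ∀ i s, InM (K := K) T w i (fun j => τ j s / τ j i) := fun i s => by
    refine ⟨2, fun d n hn => ?_⟩
    have := NN_mul T w _ i _ (NN_mul T w _ s _ hn)
    convert this using 1
    funext j
    simp only [T, Pi.mul_apply, Pi.pow_apply]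
    by_cases h : τ j i = 0
    · simp [h]
    · field_simp
  have hr' : ∀ i s, InN (K := K) T w i (fun j => D j (τ j s / τ j i)) := fun i s => by
    refine ⟨3, ?_⟩
    have h2 : w (i, s) ∈ NN (K := K) T w 2 := Submodule.subset_span ⟨_, rfl⟩
    have := NN_mul T w _ i _ h2
    convert this using 1
    funext j
    simp only [T, w, Pi.mul_apply, Pi.pow_apply]
    by_cases h : τ j i = 0
    · simp [h]
    · rw [D_div _ _ h]; field_simp
  have hev : ∀ i P, InM (K := K) T w i (ev i P) ∧ InN (K := K) T w i (dv i P) := fun i P => by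
    induction P using MvPolynomial.induction_on with
    | C a =>
      refine ⟨⟨0, fun d n hn => ?_⟩, ⟨0, ?_⟩⟩
      · have := Submodule.smul_mem _ a hn
        rw [add_zero]
        convert this using 1
        funext j
        simp [ev, Algebra.smul_def]
      · have : dv i (MvPolynomial.C a) = 0 := by funext j; simp [dv, ev]
        simp [this]
    | add p q hp hq =>
      have e1 : ev i (p + q) = ev i p + ev i q := by funext j; simp [ev]
      have e2 : dv i (p + q) = dv i p + dv i q := by funext j; simp [dv, ev]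
      rw [e1, e2]
      exact ⟨hp.1.add hq.1, hp.2.add hq.2⟩
    | mul_X p s hp =>
      have e1 : ev i (p * MvPolynomial.X s) = ev i p * fun j => τ j s / τ j i := by
        funext j; simp [ev]
      have e2 : dv i (p * MvPolynomial.X s) = ev i p * (fun j => D j (τ j s / τ j i)) +
          (fun j => τ j s / τ j i) * dv i p := by
        funext j
        simp only [dv, ev, map_mul, MvPolynomial.aeval_X, Derivation.leibniz, smul_eq_mul,
          Pi.add_apply, Pi.mul_apply]
      rw [e1, e2]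
      exact ⟨hp.1.mul (hr i s), (hp.1.mulN (hr' i s)).add ((hr i s).mulN hp.2)⟩
  let c : ℕ → ι → ι → ∀ j, F j := fun m i i' =>
    ∑ l, ∑ l', ev i' (e m i' l' l) * dv i (e m i l l')
  let al : ∀ j, ℕ → ι → F j := fun j m i => ∑ l, ϑ j m l * D j (lam j m i l)
  have hc : ∀ j m i i', τ j i ≠ 0 → τ j i' ≠ 0 → c m i i' j = al j m i - al j m i' := by
    intro j m i i' hi hi'
    simp only [c, al, Finset.sum_apply, Pi.mul_apply, dv, ev, hl2 j m i hi, hl2 j m i' hi']
    exact alpha_diff (D j) (ϑ j m) _ _ (hl1 j m i hi) (hl1 j m i' hi')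
  obtain ⟨a, ω, ha, hω, hco⟩ := h2 K (∀ j, F j) ι T
    (fun x => ⟨fun j => (x j)⁻¹, by
      funext j
      simp only [Pi.mul_apply]
      by_cases h : x j = 0
      · simp [h]
      · field_simp⟩)
    (NN T w) (NN_fg T w) (NN_mul T w)
    ⟨2, fun d hd => by
      obtain ⟨d, rfl⟩ : ∃ d', d = d' + 2 := ⟨d - 2, by omega⟩
      rw [NN]⟩
    c (fun m i i' => In2.sum _ _ fun l => In2.sum _ _ fun l' =>
      (hev i' (e m i' l' l)).1.mul2 (hev i (e m i l l')).2)
    (fun m i i' i'' => by
      funext j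
      simp only [T, Pi.mul_apply, Pi.add_apply, Pi.sub_apply, Pi.zero_apply]
      by_cases a1 : τ j i = 0
      · simp [a1]
      by_cases a2 : τ j i' = 0
      · simp [a2]
      by_cases a3 : τ j i'' = 0
      · simp [a3]
      rw [hc j m i' i'' a2 a3, hc j m i i'' a1 a3, hc j m i i' a1 a2]
      ring)
  have hne : a.support.Nonempty := Finsupp.support_nonempty_iff.2 ha
  set j := a.support.min' hne with hj
  have hja : j ∈ a.support := Finset.min'_mem _ _
  let β : ι → F j := fun i => ∑ m ∈ a.support, algebraMap K (F j) (a m) * al j m i + ω i j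
  have hβ : ∀ i i', τ j i ≠ 0 → τ j i' ≠ 0 → β i = β i' := by
    intro i i' hi hi'
    obtain ⟨M, hM⟩ := hco i i'
    have h3 := congrFun hM j
    simp only [T, Pi.mul_apply, Pi.pow_apply, Pi.sub_apply, Pi.zero_apply, Finsupp.sum,
      Finset.sum_apply, hc j _ i i' hi hi', Algebra.smul_def, Pi.algebraMap_apply, mul_sub,
      Finset.sum_sub_distrib] at h3
    have hp : (τ j i * τ j i') ^ M ≠ 0 := pow_ne_zero _ (mul_ne_zero hi hi')
    apply mul_left_cancel₀ hp
    simp only [β]
    linear_combination h3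
  obtain ⟨i0, hi0⟩ := hτ j
  refine hDn j (β i0) (a j) (Finsupp.mem_support_iff.1 hja) fun W hK l hl hlW => ?_
  obtain ⟨i, hi, hiW⟩ := exists_maxval W (τ j) ⟨i0, hi0⟩
  rw [hβ i0 i hi0 hi]
  set R := Submodule.span W (D j '' (W : Set (F j))) with hR
  have hW : ∀ m l l', lam j m i l * ϑ j m l' ∈ W := fun m l l' => by
    rw [← hl2 j m i hi]; exact aeval_mem W hK _ hiW _
  let S : ℕ → Submodule K (∀ j, F j) := fun d =>
    { carrier := {v | v j / τ j i ^ d ∈ R}
      add_mem' := fun {x y} hx hy => by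
        simp only [Set.mem_ofPred_eq, Pi.add_apply, add_div] at *
        exact R.add_mem hx hy
      zero_mem' := by simp
      smul_mem' := fun k x hx => by
        simp only [Set.mem_ofPred_eq, Algebra.smul_def, Pi.mul_apply, Pi.algebraMap_apply,
          mul_div_assoc] at *
        exact mul_mem_R R (hK k) hx }
  have hS2 : ∀ d, NN (K := K) T w (d + 2) ≤ S (d + 2) := fun d => by
    induction d with
    | zero =>
      rw [zero_add, NN, Submodule.span_le]
      rintro _ ⟨⟨p, q⟩, rfl⟩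
      change (τ j p * D j (τ j q) - τ j q * D j (τ j p)) / τ j i ^ 2 ∈ R
      have : (τ j p * D j (τ j q) - τ j q * D j (τ j p)) / τ j i ^ 2 =
          τ j p / τ j i * D j (τ j q / τ j i) - τ j q / τ j i * D j (τ j p / τ j i) := by
        rw [D_div _ _ hi, D_div _ _ hi]; field_simp; ring
      rw [this]
      exact R.sub_mem (mul_mem_R R (hiW p) (Submodule.subset_span ⟨_, hiW q, rfl⟩))
        (mul_mem_R R (hiW q) (Submodule.subset_span ⟨_, hiW p, rfl⟩))
    | succ d ih =>
      rw [NN]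
      refine iSup_le fun s => ?_
      rintro _ ⟨v, hv, rfl⟩
      change (τ j s * v j) / τ j i ^ (d + 1 + 2) ∈ R
      have : (τ j s * v j) / τ j i ^ (d + 1 + 2) = τ j s / τ j i * (v j / τ j i ^ (d + 2)) := by
        field_simp; ring
      rw [this]
      exact mul_mem_R R (hiW s) (ih hv)
  have hωR : ω i j ∈ R := by
    obtain ⟨M, hM⟩ := hω i
    have := hS2 M (NN_pow T w i 2 _ hM)
    change (τ j i ^ 2 * (τ j i ^ M * ω i j)) / τ j i ^ (M + 2) ∈ R at this
    convert this using 1
    field_simp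
    ring
  have hsum : β i + algebraMap K (F j) (a j) * (D j (ϑ j j l) / ϑ j j l) =
      algebraMap K (F j) (a j) * (al j j i + D j (ϑ j j l) / ϑ j j l) +
        ∑ m ∈ a.support.erase j, algebraMap K (F j) (a m) * al j m i + ω i j := by
    simp only [β]
    rw [← Finset.add_sum_erase _ _ hja]
    ring
  rw [hsum]
  refine R.add_mem (R.add_mem (mul_mem_R R (hK _)
    (alpha_mem (D j) W _ _ (hl1 j j i hi) (hW j) l hl hlW)) (R.sum_mem fun m hm => ?_)) hωR
  have hjm : j < m := lt_of_le_of_ne (Finset.min'_le _ _ (Finset.mem_of_mem_erase hm))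
    (Finset.ne_of_mem_erase hm).symm
  obtain ⟨l', h', hW'⟩ := exists_maxval W (ϑ j m) (by
    by_contra hcon
    push Not at hcon
    have := hl1 j m i hi
    simp [hcon] at this)
  have := alpha_mem (D j) W _ _ (hl1 j m i hi) (hW m) l' h' hW'
  rw [hDL j _ (hL j m hjm l'), zero_div, add_zero] at this
  exact mul_mem_R R (hK _) this

end Pool.Agent.H485Z.NPB
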